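import Mathlib
import Pool.Agent.Run7.h572.RM.Rank

/-!
# Matchings of regular sums (problem MP_a3a416_nt)

Call an even number `r ≤ p - 3` a regular index of the prime `p` when `p` does not divide the
numerator of the Bernoulli number `B_r`.  We show that the rectangular Hankel matrix
`(B_{2(a+b)} / (2(a+b))!)`, `1 ≤ a ≤ m`, `u < b ≤ u + L`, has rank `m` modulo `p` as soon as
`k (2 L + 1) ≥ 2 u + 2 + (2 m - 1) k ^ 2` for some `k ≥ 1` and all its indices are at most
`p - 3`.  Consequently there is an injective matching `a ↦ τ a` of `[1, m]` into `(u, u + L]`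
all of whose sums `2 (a + τ a)` are regular indices, and no sumset `A + B` with
`A ⊆ [1, m]`, `B ⊆ (u, u + L]`, `|A| + |B| > L` consists of irregular indices.
-/

open Finset

namespace Pool.Agent.Results.MP_a3a416_nt.MatchingsOfRegularSums

open Pool.Agent.H332R2 Pool.Agent.Run7.h572.RM

/-- `B_j / j!` modulo `p`, for `j ≤ p - 2` (then `p` does not divide the denominator) -/
noncomputable def beta (p : ℕ) [Fact p.Prime] (j : ℕ) : ZMod p :=
  ((bernoulli j : ℚ) : ZMod p) * ((j.factorial : ℕ) : ZMod p)⁻¹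

/-- `2 i` is a regular index of `p`: `p` does not divide the numerator of `B_{2i}` -/
def RegularIndex (p i : ℕ) : Prop := ¬ (p : ℤ) ∣ (bernoulli (2 * i)).num

section proof

variable {p : ℕ} [hp : Fact p.Prime]

open PowerSeries in
/-- the short series attached to a vector -/
noncomputable def VV (m : ℕ) (v : ℕ → ZMod p) : (ZMod p)⟦X⟧ :=
  ∑ a ∈ Icc 1 m, C (v a) * X ^ (2 * (m - a))

open PowerSeries in
lemma VV_coeff (m : ℕ) (v : ℕ → ZMod p) (a : ℕ) (ha : a ∈ Icc 1 m) :
    coeff (2 * (m - a)) (VV m v) = v a := by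
  unfold VV
  rw [map_sum, Finset.sum_eq_single a]
  · rw [coeff_C_mul, coeff_X_pow, if_pos rfl, mul_one]
  · intro b hb hne
    rw [Finset.mem_Icc] at ha hb
    rw [coeff_C_mul, coeff_X_pow, if_neg (by omega), mul_zero]
  · intro h; exact absurd ha h

open PowerSeries in
lemma VV_short (m : ℕ) (v : ℕ → ZMod p) (i : ℕ) (hi : 2 * m - 2 < i) :
    coeff i (VV m v) = 0 := by
  unfold VV
  rw [map_sum]
  refine Finset.sum_eq_zero (fun a ha => ?_)
  rw [Finset.mem_Icc] at ha
  rw [coeff_C_mul, coeff_X_pow, if_neg (by omega), mul_zero]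

open PowerSeries in
lemma VV_mul_coeff (m : ℕ) (v : ℕ → ZMod p) (l : ℕ) (hl : 2 * m ≤ l) :
    coeff l (VV m v * hh p) = ∑ a ∈ Icc 1 m, v a * cc p (l - 2 * (m - a)) := by
  unfold VV
  rw [Finset.sum_mul, map_sum]
  refine Finset.sum_congr rfl (fun a ha => ?_)
  rw [Finset.mem_Icc] at ha
  rw [mul_assoc, coeff_C_mul, coeff_X_pow_mul', if_pos (by omega), hh, coeff_mk]

/-- the rank statement -/
theorem rank_full (m u k L : ℕ) (hk : 1 ≤ k)
    (hL : 2 * u + 2 + (2 * m - 1) * k ^ 2 ≤ k * (2 * L + 1)) (hpL : 2 * (m + u + L) + 3 ≤ p)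
    (v : ℕ → ZMod p)
    (hv : ∀ b ∈ Ioc u (u + L), ∑ a ∈ Icc 1 m, v a * beta p (2 * (a + b)) = 0) :
    ∀ a ∈ Icc 1 m, v a = 0 := by
  rcases Nat.eq_zero_or_pos m with rfl | hm
  · intro a ha; simp at ha
  have hp3 : 3 ≤ p := by omega
  have hkL : (2 * m - 1) * k < 2 * L + 1 := by
    by_contra hcon
    push Not at hcon
    have h1 : k * (2 * L + 1) ≤ k * ((2 * m - 1) * k) := Nat.mul_le_mul_left k hcon
    have h2 : k * ((2 * m - 1) * k) = (2 * m - 1) * k ^ 2 := by ring
    omega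
  have hkk : k ≤ (2 * m - 1) * k := Nat.le_mul_of_pos_left k (by omega)
  obtain ⟨N, rfl⟩ : ∃ N, k = N + 1 := ⟨k - 1, by omega⟩
  obtain ⟨M, rfl⟩ : ∃ M, m = M + 1 := ⟨m - 1, by omega⟩
  have e2m : 2 * (M + 1) - 1 = 2 * M + 1 := by omega
  rw [e2m] at hL hkL hkk
  have hexp : (2 * M + 1) * (N + 1) = N * (2 * M + 1) + (2 * M + 1) := by ring
  have hVz : VV (M + 1) v = 0 := by
    refine core (VV (M + 1) v) (2 * M) (2 * (M + 1 + u)) (2 * (M + 1 + u + L) + 1) N
      (fun i hi => VV_short _ _ _ (by omega)) (by omega) (by omega) (by omega) (by omega)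
      ?_ ?_ ?_
    · -- counting
      have e1 : 2 * (M + 1 + u + L) + 1 - (2 * (M + 1 + u) + N * (2 * M + 1)) =
          2 * L + 1 - N * (2 * M + 1) := by omega
      rw [e1]
      obtain ⟨T, hT⟩ : ∃ T, 2 * L + 1 = N * (2 * M + 1) + T := ⟨2 * L + 1 - N * (2 * M + 1), by omega⟩
      rw [hT, Nat.add_sub_cancel_left]
      rw [hT] at hL
      nlinarith [hL, hT]
    · nlinarith [hkL]
    · intro l hl hlW
      rw [VV_mul_coeff (M + 1) v l (by omega)]
      rcases Nat.even_or_odd' l with ⟨c, hc | hc⟩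
      · have hb := hv (c - (M + 1)) (by rw [Finset.mem_Ioc]; omega)
        rw [← hb]
        refine Finset.sum_congr rfl (fun a ha => ?_)
        rw [Finset.mem_Icc] at ha
        have e3 : l - 2 * (M + 1 - a) = 2 * (a + (c - (M + 1))) := by omega
        rw [e3]
        rfl
      · refine Finset.sum_eq_zero (fun a ha => ?_)
        rw [Finset.mem_Icc] at ha
        have hodd : Odd (l - 2 * (M + 1 - a)) := ⟨c - (M + 1 - a), by omega⟩
        have hb0 : bernoulli (l - 2 * (M + 1 - a)) = 0 :=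
          bernoulli_eq_zero_of_odd hodd (by omega)
        rw [cc, hb0, Rat.cast_zero, zero_mul, mul_zero]
  intro a ha
  rw [← VV_coeff (M + 1) v a ha, hVz, map_zero]

/-- Hall's condition from the rank statement -/
theorem matching (m u L : ℕ) (hpL : 2 * (m + u + L) + 3 ≤ p)
    (hrank : ∀ v : ℕ → ZMod p,
      (∀ b ∈ Ioc u (u + L), ∑ a ∈ Icc 1 m, v a * beta p (2 * (a + b)) = 0) →
      ∀ a ∈ Icc 1 m, v a = 0) :
    ∃ τ : ℕ → ℕ, Set.InjOn τ (Icc 1 m) ∧
      ∀ a ∈ Icc 1 m, τ a ∈ Ioc u (u + L) ∧ RegularIndex p (a + τ a) := by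
  classical
  have hp3 : 3 ≤ p := by omega
  set S : ↥(Icc 1 m) → Finset ℕ := fun a =>
    (Ioc u (u + L)).filter (fun b => RegularIndex p (a.1 + b)) with hS
  have hall : ∀ s : Finset ↥(Icc 1 m), s.card ≤ (s.biUnion S).card := by
    intro s
    by_contra hcon
    push Not at hcon
    -- a nonzero vector supported on `s`, orthogonal to the columns in the neighbourhood
    let f : (↥s → ZMod p) →ₗ[ZMod p] (↥(s.biUnion S) → ZMod p) :=
      { toFun := fun w b => ∑ a : ↥s, w a * beta p (2 * (a.1.1 + b.1))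
        map_add' := by
          intro w w'
          funext b
          simp only [Pi.add_apply, add_mul, Finset.sum_add_distrib]
        map_smul' := by
          intro c w
          funext b
          simp only [Pi.smul_apply, smul_eq_mul, RingHom.id_apply, Finset.mul_sum, mul_assoc] }
    have hker : LinearMap.ker f ≠ ⊥ := by
      refine LinearMap.ker_ne_bot_of_finrank_lt ?_
      rw [Module.finrank_fintype_fun_eq_card, Module.finrank_fintype_fun_eq_card,
        Fintype.card_coe, Fintype.card_coe]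
      exact hcon
    obtain ⟨w, hw, hw0⟩ := (Submodule.ne_bot_iff _).mp hker
    rw [LinearMap.mem_ker] at hw
    apply hw0
    let v : ℕ → ZMod p := fun a =>
      if h : ∃ h1 : a ∈ Icc 1 m, (⟨a, h1⟩ : ↥(Icc 1 m)) ∈ s then w ⟨⟨a, h.1⟩, h.2⟩ else 0
    have hvs : ∀ a : ↥s, v a.1.1 = w a := by
      intro a
      have h : ∃ h1 : a.1.1 ∈ Icc 1 m, (⟨a.1.1, h1⟩ : ↥(Icc 1 m)) ∈ s := ⟨a.1.2, a.2⟩
      simp only [v, dif_pos h]
    have hsum : ∀ b : ℕ, ∑ a ∈ Icc 1 m, v a * beta p (2 * (a + b)) =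
        ∑ a : ↥s, w a * beta p (2 * (a.1.1 + b)) := by
      intro b
      rw [← Finset.sum_coe_sort (Icc 1 m)]
      have h1 : ∑ a : ↥(Icc 1 m), v a.1 * beta p (2 * (a.1 + b)) =
          ∑ a ∈ s, v a.1 * beta p (2 * (a.1 + b)) := by
        symm
        refine Finset.sum_subset (Finset.subset_univ s) (fun a _ ha => ?_)
        have h : ¬ ∃ h1 : a.1 ∈ Icc 1 m, (⟨a.1, h1⟩ : ↥(Icc 1 m)) ∈ s := by
          rintro ⟨_, h2⟩; exact ha h2
        simp only [v, dif_neg h, zero_mul]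
      rw [h1, ← Finset.sum_coe_sort s]
      refine Finset.sum_congr rfl (fun a _ => ?_)
      rw [hvs]
    have hz := hrank v (by
      intro b hb
      rw [hsum]
      by_cases hbS : b ∈ s.biUnion S
      · exact congrFun hw ⟨b, hbS⟩
      · refine Finset.sum_eq_zero (fun a _ => ?_)
        have hnot : ¬ RegularIndex p (a.1.1 + b) := by
          intro hreg
          apply hbS
          rw [Finset.mem_biUnion]
          exact ⟨a.1, a.2, by rw [hS]; exact Finset.mem_filter.mpr ⟨hb, hreg⟩⟩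
        have ha := a.1.2
        rw [Finset.mem_Icc] at ha
        rw [Finset.mem_Ioc] at hb
        have h3 : cc p (2 * (a.1.1 + b)) = 0 := by
          rw [cc_eq_zero_iff (by omega) hp3]
          unfold RegularIndex at hnot
          exact not_not.mp hnot
        have h4 : beta p (2 * (a.1.1 + b)) = 0 := h3
        rw [h4, mul_zero])
    funext a
    rw [← hvs a, hz a.1.1 a.1.2]
    rfl
  obtain ⟨f, hf1, hf2⟩ := (Finset.all_card_le_biUnion_card_iff_exists_injective S).mp hall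
  refine ⟨fun a => if h : a ∈ Icc 1 m then f ⟨a, h⟩ else 0, ?_, ?_⟩
  · intro a ha b hb hab
    have ha' : a ∈ Icc 1 m := ha
    have hb' : b ∈ Icc 1 m := hb
    simp only [dif_pos ha', dif_pos hb'] at hab
    have := hf1 hab
    exact congrArg Subtype.val this
  · intro a ha
    have h := hf2 ⟨a, ha⟩
    rw [hS] at h
    rw [Finset.mem_filter] at h
    simp only [dif_pos ha]
    exact h

end proof

/-- **Matchings of regular sums.** -/
theorem result (p : ℕ) [Fact p.Prime] (m u k L : ℕ) (hk : 1 ≤ k)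
    (hL : 2 * u + 2 + (2 * m - 1) * k ^ 2 ≤ k * (2 * L + 1))
    (hpL : 2 * (m + u + L) + 3 ≤ p) :
    (∀ v : ℕ → ZMod p,
      (∀ b ∈ Ioc u (u + L), ∑ a ∈ Icc 1 m, v a *
        (((bernoulli (2 * (a + b)) : ℚ) : ZMod p) *
          (((2 * (a + b)).factorial : ℕ) : ZMod p)⁻¹) = 0) →
      ∀ a ∈ Icc 1 m, v a = 0) ∧
    (∃ τ : ℕ → ℕ, Set.InjOn τ (Icc 1 m) ∧
      ∀ a ∈ Icc 1 m, τ a ∈ Ioc u (u + L) ∧
        ¬ (p : ℤ) ∣ (bernoulli (2 * (a + τ a))).num) ∧
    (∀ A ⊆ Icc 1 m, ∀ B ⊆ Ioc u (u + L), L < A.card + B.card →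
      ∃ a ∈ A, ∃ b ∈ B, ¬ (p : ℤ) ∣ (bernoulli (2 * (a + b))).num) := by
  have hrank : ∀ v : ℕ → ZMod p,
      (∀ b ∈ Ioc u (u + L), ∑ a ∈ Icc 1 m, v a * beta p (2 * (a + b)) = 0) →
      ∀ a ∈ Icc 1 m, v a = 0 := fun v hv => rank_full m u k L hk hL hpL v hv
  obtain ⟨τ, hinj, hτ⟩ := matching m u L hpL hrank
  refine ⟨hrank, ⟨τ, hinj, hτ⟩, ?_⟩
  intro A hA B hB hcard
  by_contra hcon
  push Not at hcon
  have hdisj : Disjoint (A.image τ) B := by
    rw [Finset.disjoint_left]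
    intro x hx hxB
    rw [Finset.mem_image] at hx
    obtain ⟨a, ha, rfl⟩ := hx
    exact (hτ a (hA ha)).2 (hcon a ha (τ a) hxB)
  have hsub : (A.image τ) ∪ B ⊆ Ioc u (u + L) := by
    refine Finset.union_subset (fun x hx => ?_) hB
    rw [Finset.mem_image] at hx
    obtain ⟨a, ha, rfl⟩ := hx
    exact (hτ a (hA ha)).1
  have h1 := Finset.card_le_card hsub
  have hAc : (A.image τ).card = A.card :=
    Finset.card_image_of_injOn (hinj.mono (fun x hx => hA hx))
  rw [Finset.card_union_of_disjoint hdisj, hAc, Nat.card_Ioc] at h1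
  omega

end Pool.Agent.Results.MP_a3a416_nt.MatchingsOfRegularSums
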