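import Mathlib
import Pool.Agent.Run7.h263.RI.Main

/-!
# Every index is a sum of two regular indices

Call `i`, `1 ≤ i ≤ (p - 3) / 2`, a regular index of the prime `p` if `p` does not divide the
numerator of `B_{2i}`.  We prove that every integer `N` with `2 ≤ N ≤ (p - 3) / 2`, regular or not,
is a sum `N = i + j` of two regular indices `i, j ≥ 1`.  With a zero estimate from earlier work this
gives at least `√(2N) / 3` such representations (`i, N - i`), for every prime `p` and every `N`.  If `N`
is irregular then the smallest `v` such that `v` and `N - v` are regular satisfies `4 v ≤ N`, and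
there are more than `2 v` representations.

Outline of the proof of the first statement (for irregular `N`).  Suppose that all products
`B_{2i} B_{2N-2i}` vanish modulo `p`.  Let `e = e^x` be the truncated exponential series over an
algebraic closure `K` of the field with `p` elements, `c_ζ = (e + ζ) / (e - ζ)`, and for `a` prime to `p`
`H_a = ∑_{ζ^a = 1} x c_ζ`, which is `a x coth (a x / 2)` up to `x^{p-1}`.  So `H_a H_b` has no term in
`x^{2N}`.  For coprime `a, b` the addition theorem
`c_ζ c_η = 1 + (ζ + η) / (ζ - η) (c_ζ - c_η)` gives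
`H_a H_b = H_1^2 + x^2 (a b - 1) + x^2 (b ∑_{ζ ∈ μ_a∖1} κ(ζ^b) c_ζ + a ∑_{η ∈ μ_b∖1} κ(η^a) c_η)`,
`κ(y) = (y + 1) / (y - 1)`; so the generalised Dedekind sums
`E(a, b) = ∑_{ζ ∈ μ_a∖1} κ(ζ^b) D(ζ)`, `D(ζ)` the coefficient of `x^{2N-2}` in `c_ζ`, satisfy the
reciprocity law `b E(a, b) + a E(b, a) = 0` (`Rec.lean`).  As `E(a, b)` is odd in `b` and depends on `b`
modulo `a` only, Euclid's algorithm, which can be arranged to avoid multiples of `p`, gives
`E(a, b) = 0` for all coprime `a, b`, `p ∤ a` (`Desc.lean`).  For `a = 3^{m+1}` this says that the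
correlation of the two odd functions `u ↦ κ(ζ^u)` and `u ↦ D(ζ^u)` on the units modulo `3^{m+1}` is
zero, so for every odd character `χ` one of the sums `∑ χ(u) κ(ζ^u)`, `∑ χ(u)⁻¹ D(ζ^u)` is zero
(`Char.lean`).  Both functions are of the form `P(1 / (1 - ζ^u))` with a polynomial `P` over the
field with `p` elements, not constant, of a degree independent of `m`.  For faithful `χ` and large
`m` such sums are not zero (`NV2.lean`), in the manner of Washington and Sinnott: the Frobenius
moves `χ` through a full coset of the characters of `3`-power order, so the sum over every coset of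
a small subgroup would vanish, and these sums are values, at too many roots of unity, of a
polynomial of bounded degree which is not zero at `1`.
-/

set_option autoImplicit false

namespace Pool.Agent.Results.MP_a3a416_nt.EveryIndexSumOfTwoRegular

/-- Let `p` be prime and `2 ≤ N ≤ (p - 3) / 2`, and let `R` be the set of all `i`, `1 ≤ i ≤ N - 1`, such
that `i` and `N - i` are regular indices of `p`.  Then `R` is not empty, `2 N ≤ 9 |R|²`, and if `N` is
irregular then `4 min R ≤ N` and `2 min R < |R|`. -/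
theorem result (p : ℕ) (hp : p.Prime) (N : ℕ) (hN : 2 ≤ N) (hNp : 2 * N + 3 ≤ p) (R : Finset ℕ)
    (hR : ∀ i : ℕ, i ∈ R ↔ 1 ≤ i ∧ i < N ∧ ¬ ((p : ℤ) ∣ (bernoulli (2 * i)).num) ∧
      ¬ ((p : ℤ) ∣ (bernoulli (2 * (N - i))).num)) :
    R.Nonempty ∧ 2 * N ≤ 9 * R.card ^ 2 ∧
    ((p : ℤ) ∣ (bernoulli (2 * N)).num →
      ∃ v ∈ R, (∀ i ∈ R, v ≤ i) ∧ 4 * v ≤ N ∧ 2 * v < R.card) := by
  have : Fact p.Prime := ⟨hp⟩
  have hRR : R = Pool.Agent.Run7.h263.RI.RR p N := by
    ext i
    rw [hR, Pool.Agent.Run7.h263.RI.RR, Finset.mem_filter, Finset.mem_Icc]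
    constructor
    · rintro ⟨h1, h2, h3⟩
      exact ⟨⟨h1, by omega⟩, h3⟩
    · rintro ⟨⟨h1, h2⟩, h3⟩
      exact ⟨h1, by omega, h3⟩
  have hcount := Pool.Agent.Run7.h263.RI.rep_count (p := p) hN hNp
  rw [← hRR] at hcount
  refine ⟨?_, hcount, ?_⟩
  · rw [← Finset.card_pos]
    by_contra hc
    have h3 : R.card = 0 := by omega
    rw [h3] at hcount
    omega
  · intro hirr
    obtain ⟨v, h1, h2, h3, h4, h5, h6⟩ := Pool.Agent.Run7.h263.RI.small_pair (p := p) hN hNp hirr
    rw [← hRR] at h5
    refine ⟨v, (hR v).2 ⟨h1, by omega, h3, h4⟩, ?_, h2, h5⟩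
    intro i hi
    rw [hR] at hi
    by_contra hc
    rcases h6 i hi.1 (by omega) with h7 | h7
    · exact hi.2.2.1 h7
    · exact hi.2.2.2 h7

end Pool.Agent.Results.MP_a3a416_nt.EveryIndexSumOfTwoRegular
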