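import Mathlib
import Pool.Agent.Run7.h97.GO.Asym

/-!
# In every Galois orbit of odd characters at most about half of the Bernoulli numbers are irregular

The group of units modulo `p - 1` acts on the odd residues `2i - 1` modulo `p - 1`, that is, on the
indices of the Bernoulli numbers `B_{2i}` in the criterion of Kummer; this is the action of the Galois
group on the odd characters `ω^(2i-1)` modulo `p`. The orbits are given by the value
`m = gcd(2i - 1, p - 1)`, an odd divisor of `p - 1`; the orbit of `m` has `φ((p - 1) / m)` elements, and it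
belongs to the characters of exact order `d = (p - 1) / m`. `irr p m` is the set of the irregular
indices in this orbit: the `i`, `1 ≤ i ≤ (p - 3) / 2`, `gcd(2i - 1, p - 1) = m`, for which `p` divides the
numerator of `B_{2i}` (for `m = 1` the orbit also contains `i = (p - 1) / 2`, which is not an index of the criterion).

Proof. Let `χ` be a character modulo `p` with values in the ring of integers `R` of `ℚ(ζ_d)`, of exact
order `d`, and `S = ∑_{a < p/2} χ(a)`, an element which is not zero since `L(1, χ) ≠ 0`. The ring `R` has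
`φ(d)` homomorphisms to `𝔽_p`, with different kernels, and the values of `S` are the numbers
`∑_{a < p/2} a^(2i-1)`, which are zero modulo `p` if `i` is irregular. So `p^r` divides the norm of `S`,
`r` the number of the irregular indices of the orbit. By Gauss' lemma `(1 - ζ) S` is divisible by `2`,
and all conjugates of `S` are at most `√p (log p + 2) / π`.
-/

set_option autoImplicit false

namespace Pool.Agent.Results.MP_a3a416_nt.GaloisOrbits

open Finset

/-- the irregular indices `i` of `p` with `gcd(2i - 1, p - 1) = m` -/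
def irr (p m : ℕ) : Finset ℕ :=
  (Icc 1 ((p - 3) / 2)).filter
    (fun i => Nat.gcd (2 * i - 1) (p - 1) = m ∧ (p : ℤ) ∣ (bernoulli (2 * i)).num)

/-- (1) For every prime `p ≥ 5` and every `m`, the number `r` of the irregular indices `i` of `p` with
`gcd(2i - 1, p - 1) = m` satisfies `p^r ≤ 2 (√p (log p + 2) / (2π))^{φ((p-1)/m)}`.
(2) For every `ε > 0` and all large `p`, uniformly in `m`, `r ≤ (1/2 + ε) φ((p - 1) / m)`.
(3) For fixed `d` and all large `p`, `p ≡ 1 mod d`, `2 r ≤ φ(d)` for `m = (p - 1) / d`. -/
theorem result :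
    (∀ p : ℕ, p.Prime → 5 ≤ p → ∀ m : ℕ,
      (p : ℝ) ^ (irr p m).card ≤
        2 * (√p * (Real.log p + 2) / (2 * Real.pi)) ^ ((p - 1) / m).totient) ∧
    (∀ ε : ℝ, 0 < ε → ∃ P : ℕ, ∀ p : ℕ, p.Prime → P ≤ p → ∀ m : ℕ,
      ((irr p m).card : ℝ) ≤ (1 / 2 + ε) * ((p - 1) / m).totient) ∧
    (∀ d : ℕ, ∃ P : ℕ, ∀ p : ℕ, p.Prime → P ≤ p → ∀ m : ℕ, p - 1 = m * d →
      2 * (irr p m).card ≤ d.totient) :=
  ⟨Pool.Agent.Run7.h97.GO.main, Pool.Agent.Run7.h97.GO.eps, Pool.Agent.Run7.h97.GO.fixed⟩

end Pool.Agent.Results.MP_a3a416_nt.GaloisOrbits
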