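import Mathlib
import Pool.Agent.Run7.h202.RB.Main

/-!
# The representations of an index as a sum of two regular indices are spread out

Call `i`, `1 ≤ i ≤ (p - 3) / 2`, a regular index of the prime `p` if `p` does not divide the
numerator of `B_{2i}`.  For every prime `p`, every `N` with `2 ≤ N ≤ (p - 3) / 2`, regular or not, and
every `a < N / 3` we bound below the number and the spread of the pairs `(i, N - i)` of regular
indices with `a < i < N - a`: if they are covered by `n` intervals of total length `Λ` then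
`4 (N - 3 a) ≤ 12 Λ + 9 n (n + 1)`.  In particular

* the number `s` of these pairs satisfies `4 (N - 3 a) ≤ 9 s (s + 1)`; so there are at least
  `√N / 3 - 1` pairs with `N / 4 ≤ i ≤ 3 N / 4`;
* every `N` is a sum `N = i + j` of two regular indices with `i ≤ j ≤ 2 i`;
* there is a regular pair with `a < i ≤ N / 3 + a / 2 + 3 / 4`, `i ≤ N / 2`.

The case `a = 0` of the first item was known (without control of the position of the pairs).

Proof.  With `w_i = B_{2i} / (2i)! * B_{2N-2i} / (2N-2i)!` the addition theorem of `coth` gives the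
identity `∑ w_i (X (X+1)^{2i} + (X+1)^{2i} X^{2N-2i} - (X+1) X^{2i}) = 0` modulo `p`.  The terms with
`i ≤ a` and `i ≥ N - a` are collected in three polynomials `A`, `X^m B`, `(X+1)^m C`,
`m = 2 N - 2 a + 1`, with `A, B, C` of degree at most `2 a` (not only `2 a + 1`); the terms of every
interval `[u, v]` in three polynomials, which are `X^{2u} (X+1)`, `X (X+1)^{2u}`, `X^{2N-2v} (X+1)^{2u}`
times polynomials of degree at most `2 (v - u)`.  In a minimal linear relation between such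
polynomials (there is one, because some `w_i` is not zero: `EveryIndexSumOfTwoRegular`) all three
kinds of terms occur (`TH10.RP.JA`), and the orders of vanishing at `0`, `-1` and `∞` of the Wronskian
give the inequality.
-/

set_option autoImplicit false

namespace Pool.Agent.Results.MP_a3a416_nt.SpreadRegularPairs

/-- Let `p` be prime and `2 ≤ N ≤ (p - 3) / 2`; call `(i, N - i)` a regular pair if `p` divides
neither the numerator of `B_{2i}` nor that of `B_{2(N-i)}`. (0) `N = i + j` with a regular pair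
`(i, j)`, `1 ≤ i ≤ j ≤ 2 i`. Let moreover `3 a < N`. (1) If every `i` with `a < i < N - a` which belongs
to a regular pair is in one of the intervals `[I.1, I.2]`, `I ∈ J`, `I.2 ≤ N`, then
`4 (N - 3 a) ≤ 12 ∑ (I.2 - I.1) + 9 n (n + 1)`, `n` the number of the intervals. (2) The number `s` of
the `i` with `a < i < N - a` in regular pairs satisfies `4 (N - 3 a) ≤ 9 s (s + 1)`. (3) There is one
of them with `2 i ≤ N` and `24 i ≤ 8 N + 12 a + 18`. -/
theorem result (p : ℕ) (hp : p.Prime) (N : ℕ) (hN : 2 ≤ N) (hNp : 2 * N + 3 ≤ p) :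
    (∃ i j : ℕ, i + j = N ∧ 1 ≤ i ∧ i ≤ j ∧ j ≤ 2 * i ∧ ¬ ((p : ℤ) ∣ (bernoulli (2 * i)).num) ∧
      ¬ ((p : ℤ) ∣ (bernoulli (2 * j)).num)) ∧
    ∀ a : ℕ, 3 * a < N →
      (∀ J : Finset (ℕ × ℕ), (∀ I ∈ J, I.2 ≤ N) →
        (∀ i : ℕ, a < i → i + a < N → ¬ ((p : ℤ) ∣ (bernoulli (2 * i)).num) →
          ¬ ((p : ℤ) ∣ (bernoulli (2 * (N - i))).num) → ∃ I ∈ J, I.1 ≤ i ∧ i ≤ I.2) →
        4 * (N - 3 * a) ≤ 12 * ∑ I ∈ J, (I.2 - I.1) + 9 * (J.card * (J.card + 1))) ∧
      (∀ R : Finset ℕ, (∀ i : ℕ, i ∈ R ↔ a < i ∧ i + a < N ∧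
          ¬ ((p : ℤ) ∣ (bernoulli (2 * i)).num) ∧ ¬ ((p : ℤ) ∣ (bernoulli (2 * (N - i))).num)) →
        4 * (N - 3 * a) ≤ 9 * (R.card * (R.card + 1))) ∧
      (∃ i : ℕ, a < i ∧ 2 * i ≤ N ∧ 24 * i ≤ 8 * N + 12 * a + 18 ∧
        ¬ ((p : ℤ) ∣ (bernoulli (2 * i)).num) ∧ ¬ ((p : ℤ) ∣ (bernoulli (2 * (N - i))).num)) := by
  classical
  have : Fact p.Prime := ⟨hp⟩
  have hww : ∀ i, i ≤ N → (Pool.Agent.TH350.SumReg.ww p N i ≠ 0 ↔
      ¬ ((p : ℤ) ∣ (bernoulli (2 * i)).num) ∧ ¬ ((p : ℤ) ∣ (bernoulli (2 * (N - i))).num)) := by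
    intro i hi
    unfold Pool.Agent.TH350.SumReg.ww
    rw [mul_ne_zero_iff, Ne, Ne, Pool.Agent.H332R2.cc_eq_zero_iff (by omega) (by omega),
      Pool.Agent.H332R2.cc_eq_zero_iff (by omega) (by omega)]
  have h1 : ∀ a : ℕ, 3 * a < N → ∀ J : Finset (ℕ × ℕ), (∀ I ∈ J, I.2 ≤ N) →
        (∀ i : ℕ, a < i → i + a < N → ¬ ((p : ℤ) ∣ (bernoulli (2 * i)).num) →
          ¬ ((p : ℤ) ∣ (bernoulli (2 * (N - i))).num) → ∃ I ∈ J, I.1 ≤ i ∧ i ≤ I.2) →
        4 * (N - 3 * a) ≤ 12 * ∑ I ∈ J, (I.2 - I.1) + 9 * (J.card * (J.card + 1)) := by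
    intro a ha J hJ hcov
    refine Run7.h202.RB.core (p := p) N hN hNp a ha J hJ ?_
    intro i h1 h2 h3
    have h4 := (hww i (by omega)).1 h3
    exact hcov i h1 h2 h4.1 h4.2
  have h2 : ∀ a : ℕ, 3 * a < N → ∀ R : Finset ℕ, (∀ i : ℕ, i ∈ R ↔ a < i ∧ i + a < N ∧
          ¬ ((p : ℤ) ∣ (bernoulli (2 * i)).num) ∧ ¬ ((p : ℤ) ∣ (bernoulli (2 * (N - i))).num)) →
        4 * (N - 3 * a) ≤ 9 * (R.card * (R.card + 1)) := by
    intro a ha R hR
    have hinj : Function.Injective (fun i : ℕ => (i, i)) := fun x y h => (Prod.mk.inj h).1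
    have h3 := h1 a ha (R.image fun i => (i, i)) (by
      intro I hI
      rw [Finset.mem_image] at hI
      obtain ⟨i, hi, rfl⟩ := hI
      have := (hR i).1 hi
      simp only
      omega) (by
      intro i h4 h5 h6 h7
      exact ⟨(i, i), Finset.mem_image_of_mem _ ((hR i).2 ⟨h4, h5, h6, h7⟩), le_rfl, le_rfl⟩)
    rw [Finset.card_image_of_injective _ hinj, Finset.sum_image (fun x _ y _ h => hinj h)] at h3
    simpa using h3
  -- existence
  have h3 : ∀ a : ℕ, 3 * a < N → ∃ i : ℕ, a < i ∧ i + a < N ∧ 2 * i ≤ N ∧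
      ¬ ((p : ℤ) ∣ (bernoulli (2 * i)).num) ∧ ¬ ((p : ℤ) ∣ (bernoulli (2 * (N - i))).num) := by
    intro a ha
    set R := (Finset.Ioo a (N - a)).filter (fun i : ℕ => ¬ ((p : ℤ) ∣ (bernoulli (2 * i)).num) ∧
      ¬ ((p : ℤ) ∣ (bernoulli (2 * (N - i))).num)) with hR
    have h4 := h2 a ha R (by
      intro i
      rw [hR, Finset.mem_filter, Finset.mem_Ioo]
      constructor
      · rintro ⟨⟨h1, h2⟩, h3, h4⟩
        exact ⟨h1, by omega, h3, h4⟩
      · rintro ⟨h1, h2, h3, h4⟩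
        exact ⟨⟨h1, by omega⟩, h3, h4⟩)
    have h5 : R.Nonempty := by
      rw [← Finset.card_pos]
      by_contra hc
      have h6 : R.card = 0 := by omega
      rw [h6] at h4
      omega
    obtain ⟨i, hi⟩ := h5
    rw [hR, Finset.mem_filter, Finset.mem_Ioo] at hi
    obtain ⟨⟨h6, h7⟩, h8, h9⟩ := hi
    rcases Nat.le_total (2 * i) N with h | h
    · exact ⟨i, h6, by omega, h, h8, h9⟩
    · refine ⟨N - i, by omega, by omega, by omega, h9, ?_⟩
      rw [show N - (N - i) = i by omega]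
      exact h8
  refine ⟨?_, fun a ha => ⟨h1 a ha, h2 a ha, ?_⟩⟩
  · obtain ⟨i, h4, h5, h6, h7, h8⟩ := h3 ((N - 1) / 3) (by omega)
    exact ⟨i, N - i, by omega, by omega, by omega, by omega, h7, h8⟩
  · have hex : ∃ i : ℕ, a < i ∧ i + a < N ∧ 2 * i ≤ N ∧
      ¬ ((p : ℤ) ∣ (bernoulli (2 * i)).num) ∧ ¬ ((p : ℤ) ∣ (bernoulli (2 * (N - i))).num) := h3 a ha
    set u := Nat.find hex with hu
    obtain ⟨h4, h5, h6, h7, h8⟩ := Nat.find_spec hex
    refine ⟨u, h4, h6, ?_, h7, h8⟩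
    have h9 := h1 a ha {(u, N - u)} (by
      intro I hI
      rw [Finset.mem_singleton] at hI
      subst hI
      simp) (by
      intro i h10 h11 h12 h13
      refine ⟨(u, N - u), Finset.mem_singleton_self _, ?_, ?_⟩
      · simp only
        by_contra hc
        push Not at hc
        exact Nat.find_min hex hc ⟨h10, h11, by omega, h12, h13⟩
      · simp only
        by_contra hc
        push Not at hc
        refine Nat.find_min hex (m := N - i) (by omega) ⟨by omega, by omega, by omega, h13, ?_⟩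
        rw [show N - (N - i) = i by omega]
        exact h12)
    rw [Finset.sum_singleton, Finset.card_singleton] at h9
    simp only at h9
    omega

end Pool.Agent.Results.MP_a3a416_nt.SpreadRegularPairs
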